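import Pool.Agent.H902R3.XI.Stmts

/-! Task Z1 of XI-PROJECT: dividing out the zeros by Blaschke factors. -/

open Complex MeasureTheory Filter Topology Set Metric
open scoped Real ENNReal

namespace Pool.Agent.H902R3.XI

theorem one_le_cnt {f : ℂ → ℂ} {S : Set ℂ} {ρ : ℂ} (hρ : ρ ∈ S) (hf : AnalyticAt ℂ f ρ)
    (h0 : f ρ = 0) : 1 ≤ cnt f S := by
  have h1 : analyticOrderAt f ρ ≠ 0 := hf.analyticOrderAt_ne_zero.2 h0
  have h2 : (1 : ℕ∞) ≤ analyticOrderAt f ρ := Order.one_le_iff_ne_zero.2 h1
  have h3 : (1 : ℝ≥0∞) ≤ ((analyticOrderAt f ρ : ℕ∞) : ℝ≥0∞) := by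
    rw [← ENat.toENNReal_one]
    exact ENat.toENNReal_le.2 h2
  exact h3.trans (ENNReal.le_tsum (f := fun z : S => ((analyticOrderAt f (z : ℂ) : ℕ∞) : ℝ≥0∞))
    ⟨ρ, hρ⟩)

theorem cnt_mul {f h : ℂ → ℂ} {S : Set ℂ} (hf : ∀ s ∈ S, AnalyticAt ℂ f s)
    (hh : ∀ s ∈ S, AnalyticAt ℂ h s) : cnt (f * h) S = cnt f S + cnt h S := by
  unfold cnt
  rw [← ENNReal.tsum_add]
  refine tsum_congr fun z => ?_
  rw [analyticOrderAt_mul (hf z z.2) (hh z z.2), ENat.toENNReal_add]

theorem cnt_eq_zero {f : ℂ → ℂ} {S : Set ℂ} (h : ∀ s ∈ S, f s ≠ 0) : cnt f S = 0 := by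
  unfold cnt
  rw [ENNReal.tsum_eq_zero]
  intro z
  rw [analyticOrderAt_eq_zero.2 (Or.inr (h z z.2)), ENat.toENNReal_zero]

theorem bl_norm {R : ℝ} {x w : ℂ} (hR : 0 < R) (hx : ‖x‖ ≤ R) (hw : ‖w‖ ≤ R) :
    R * ‖w - x‖ ≤ ‖(R:ℂ) ^ 2 - (starRingEnd ℂ) x * w‖ := by
  have h1 : (R * ‖w - x‖) ^ 2 ≤ ‖(R:ℂ) ^ 2 - (starRingEnd ℂ) x * w‖ ^ 2 := by
    rw [mul_pow, Complex.sq_norm, Complex.sq_norm, Complex.normSq_apply, Complex.normSq_apply]
    have hx2 : x.re ^ 2 + x.im ^ 2 ≤ R ^ 2 := by
      have := pow_le_pow_left₀ (norm_nonneg x) hx 2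
      rw [Complex.sq_norm, Complex.normSq_apply] at this
      nlinarith
    have hw2 : w.re ^ 2 + w.im ^ 2 ≤ R ^ 2 := by
      have := pow_le_pow_left₀ (norm_nonneg w) hw 2
      rw [Complex.sq_norm, Complex.normSq_apply] at this
      nlinarith
    have e1 : ((R:ℂ) ^ 2 - (starRingEnd ℂ) x * w).re = R ^ 2 - (x.re * w.re + x.im * w.im) := by
      simp only [Complex.sub_re, Complex.mul_re, Complex.conj_re, Complex.conj_im]
      norm_cast
      ring
    have e2 : ((R:ℂ) ^ 2 - (starRingEnd ℂ) x * w).im = -(x.re * w.im - x.im * w.re) := by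
      simp only [Complex.sub_im, Complex.mul_im, Complex.conj_re, Complex.conj_im]
      norm_cast
      ring
    rw [e1, e2, Complex.sub_re, Complex.sub_im]
    nlinarith [mul_nonneg (sub_nonneg.2 hx2) (sub_nonneg.2 hw2)]
  exact le_of_sq_le_sq h1 (norm_nonneg _)
where
  le_of_sq_le_sq {a b : ℝ} (h : a ^ 2 ≤ b ^ 2) (hb : 0 ≤ b) : a ≤ b := by
    exact abs_le_of_sq_le_sq' h hb |>.2

theorem bl_norm_eq {R : ℝ} {x w : ℂ} (hR : 0 < R) (hw : ‖w‖ = R) :
    R * ‖w - x‖ = ‖(R:ℂ) ^ 2 - (starRingEnd ℂ) x * w‖ := by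
  have hw2 : w.re * w.re + w.im * w.im = R ^ 2 := by
    have : ‖w‖ ^ 2 = R ^ 2 := by rw [hw]
    rw [Complex.sq_norm, Complex.normSq_apply] at this
    exact this
  have h1 : (R:ℂ) ^ 2 = (starRingEnd ℂ) w * w := by
    rw [mul_comm, Complex.mul_conj, Complex.normSq_apply, hw2]
    norm_cast
  rw [h1, ← sub_mul, norm_mul, ← map_sub, RCLike.norm_conj, hw, mul_comm]

theorem z1_aux (B R r : ℝ) (c : ℂ) (hR : 0 < R) (hr : 0 < r) (hrR : r < R) :
    ∀ (m : ℕ) (f : ℂ → ℂ) (N : ℝ), AnalyticOnNhd ℂ f (closedBall c R) →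
    (∀ s ∈ closedBall c R, ‖f s‖ ≤ Real.exp B) → (∀ s ∈ closedBall c r, f s ≠ 0) →
    0 ≤ N → N ≤ m → cnt f (closedBall c R) ≤ ENNReal.ofReal N →
    ∃ F : ℂ → ℂ, AnalyticOnNhd ℂ F (ball c R) ∧ (∀ s ∈ ball c R, F s ≠ 0) ∧
    (∀ s ∈ ball c R, ‖F s‖ ≤ Real.exp B) ∧ (∀ s ∈ ball c R, ‖f s‖ ≤ ‖F s‖) ∧
    (∀ s ∈ closedBall c (r / 2), ‖F s‖ ≤ ‖f s‖ * (4 * R / r) ^ N) := by
  have hq : 1 ≤ 4 * R / r := by
    rw [le_div_iff₀ hr]; linarith
  intro m
  induction m with
  | zero =>
    intro f N hf hb hz hN0 hNm hc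
    have hN : N = 0 := le_antisymm (by exact_mod_cast hNm) hN0
    refine ⟨f, hf.mono ball_subset_closedBall, ?_, fun s hs => hb s (ball_subset_closedBall hs),
      fun s _ => le_rfl, ?_⟩
    · intro s hs h0
      have := one_le_cnt (ball_subset_closedBall hs) (hf s (ball_subset_closedBall hs)) h0
      rw [hN, ENNReal.ofReal_zero] at hc
      have := this.trans hc
      simp at this
    · intro s _
      rw [hN, Real.rpow_zero, mul_one]
  | succ m ih =>
    intro f N hf hb hz hN0 hNm hc
    by_cases hall : ∀ s ∈ ball c R, f s ≠ 0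
    · refine ⟨f, hf.mono ball_subset_closedBall, hall, fun s hs => hb s (ball_subset_closedBall hs),
        fun s _ => le_rfl, ?_⟩
      intro s _
      have := Real.one_le_rpow hq hN0
      nlinarith [norm_nonneg (f s)]
    · push Not at hall
      obtain ⟨ρ, hρ, hρ0⟩ := hall
      have hρc : ρ ∈ closedBall c R := ball_subset_closedBall hρ
      have hρr : r < ‖ρ - c‖ := by
        by_contra h
        push Not at h
        exact hz ρ (by rwa [mem_closedBall, dist_eq_norm]) hρ0
      have hρR : ‖ρ - c‖ < R := by rwa [mem_ball, dist_eq_norm] at hρ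
      set h : ℂ → ℂ := dslope f ρ with hh
      set u : ℂ → ℂ := fun s => ((R:ℂ) ^ 2 - (starRingEnd ℂ) (ρ - c) * (s - c)) / R with hu
      have hRC : (R:ℂ) ≠ 0 := by exact_mod_cast hR.ne'
      have hfs : f = (fun s => s - ρ) * h := by
        ext s
        have := sub_smul_dslope f ρ s
        rw [hρ0, sub_zero, smul_eq_mul] at this
        exact this.symm
      have hhan : AnalyticOnNhd ℂ h (closedBall c R) := by
        have hopen : IsOpen {z | AnalyticAt ℂ f z} := isOpen_analyticAt ℂ f
        have hdiff : DifferentiableOn ℂ f {z | AnalyticAt ℂ f z} :=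
          fun z hz => (AnalyticAt.differentiableAt hz).differentiableWithinAt
        have hd2 : DifferentiableOn ℂ h {z | AnalyticAt ℂ f z} :=
          (Complex.differentiableOn_dslope (hopen.mem_nhds (hf ρ hρc))).2 hdiff
        intro s hs
        exact hd2.analyticAt (hopen.mem_nhds (hf s hs))
      have huan : ∀ s, AnalyticAt ℂ u s := by
        intro s
        rw [hu]
        fun_prop
      have hu_low : ∀ s ∈ closedBall c R, u s ≠ 0 := by
        intro s hs h0
        rw [mem_closedBall, dist_eq_norm] at hs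
        rw [hu] at h0
        simp only [div_eq_zero_iff, hRC, or_false] at h0
        rw [sub_eq_zero] at h0
        have h2 : ‖(R:ℂ) ^ 2‖ = ‖ρ - c‖ * ‖s - c‖ := by
          rw [h0, norm_mul, RCLike.norm_conj]
        rw [norm_pow, Complex.norm_real, Real.norm_eq_abs, abs_of_pos hR] at h2
        nlinarith [norm_nonneg (s - c), norm_nonneg (ρ - c)]
      have hnu : ∀ s, ‖u s‖ = ‖(R:ℂ) ^ 2 - (starRingEnd ℂ) (ρ - c) * (s - c)‖ / R := by
        intro s
        rw [hu]
        simp only
        rw [norm_div, Complex.norm_real, Real.norm_eq_abs, abs_of_pos hR]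
      have hsub : ∀ s : ℂ, (s - c) - (ρ - c) = s - ρ := fun s => by ring
      have hge : ∀ s ∈ closedBall c R, ‖s - ρ‖ ≤ ‖u s‖ := by
        intro s hs
        rw [mem_closedBall, dist_eq_norm] at hs
        have := bl_norm hR hρR.le hs
        rw [hsub] at this
        rw [hnu, le_div_iff₀ hR, mul_comm]
        exact this
      have heq : ∀ s, ‖s - c‖ = R → ‖s - ρ‖ = ‖u s‖ := by
        intro s hs
        have := bl_norm_eq (x := ρ - c) hR hs
        rw [hsub] at this
        rw [hnu, eq_div_iff hR.ne', mul_comm]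
        exact this
      have hup : ∀ s ∈ closedBall c (r / 2), ‖u s‖ ≤ ‖s - ρ‖ * (4 * R / r) := by
        intro s hs
        rw [mem_closedBall, dist_eq_norm] at hs
        have h1 : ‖u s‖ ≤ 2 * R := by
          rw [hnu, div_le_iff₀ hR]
          refine (norm_sub_le _ _).trans ?_
          rw [norm_mul, RCLike.norm_conj, norm_pow, Complex.norm_real, Real.norm_eq_abs,
            abs_of_pos hR]
          nlinarith [norm_nonneg (s - c), norm_nonneg (ρ - c)]
        have h2 : r / 2 ≤ ‖s - ρ‖ := by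
          have := norm_sub_norm_le (ρ - c) (s - c)
          have e : ‖(ρ - c) - (s - c)‖ = ‖s - ρ‖ := by
            rw [← norm_neg]; congr 1; ring
          rw [e] at this
          linarith
        have h3 : 2 * R = r / 2 * (4 * R / r) := by field_simp; ring
        rw [h3] at h1
        exact h1.trans (mul_le_mul_of_nonneg_right h2 (by positivity))
      have hcnt : cnt (h * u) (closedBall c R) + 1 ≤ cnt f (closedBall c R) := by
        rw [cnt_mul hhan (fun s _ => huan s), cnt_eq_zero hu_low, add_zero]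
        conv_rhs => rw [hfs]
        rw [cnt_mul (fun s _ => by fun_prop) hhan, add_comm]
        gcongr
        exact one_le_cnt hρc (by fun_prop) (sub_self ρ)
      have hN1 : 1 ≤ N := by
        have h1 := (one_le_cnt hρc (hf ρ hρc) hρ0).trans hc
        rw [← ENNReal.ofReal_one] at h1
        by_contra hlt
        push Not at hlt
        exact absurd h1 (not_le.2 ((ENNReal.ofReal_lt_ofReal_iff one_pos).2 hlt))
      have hc1 : cnt (h * u) (closedBall c R) ≤ ENNReal.ofReal (N - 1) := by
        have h1 := hcnt.trans hc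
        have h2 : ENNReal.ofReal N = ENNReal.ofReal (N - 1) + 1 := by
          rw [← ENNReal.ofReal_one, ← ENNReal.ofReal_add (by linarith) zero_le_one]
          congr 1; ring
        rw [h2] at h1
        exact (ENNReal.add_le_add_iff_right ENNReal.one_ne_top).1 h1
      have hnf : ∀ s, ‖f s‖ = ‖s - ρ‖ * ‖h s‖ := by
        intro s
        have : f s = (s - ρ) * h s := congrFun hfs s
        rw [this, norm_mul]
      have hnf1 : ∀ s, ‖(h * u) s‖ = ‖u s‖ * ‖h s‖ := by
        intro s
        rw [Pi.mul_apply, norm_mul, mul_comm]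
      have hf1an : AnalyticOnNhd ℂ (h * u) (closedBall c R) :=
        fun s hs => (hhan s hs).mul (huan s)
      have hmm : ∀ s ∈ closedBall c R, ‖(h * u) s‖ ≤ Real.exp B := by
        intro s hs
        have hcl : closure (ball c R) = closedBall c R := closure_ball c hR.ne'
        have hdc : DiffContOnCl ℂ (h * u) (ball c R) := by
          refine ⟨?_, ?_⟩
          · intro z hz
            exact (hf1an z (ball_subset_closedBall hz)).differentiableAt.differentiableWithinAt
          · rw [hcl]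
            intro z hz
            exact (hf1an z hz).continuousAt.continuousWithinAt
        refine Complex.norm_le_of_forall_mem_frontier_norm_le (isBounded_ball (x := c) (r := R))
          hdc ?_ (by rw [hcl]; exact hs)
        intro z hz
        rw [frontier_ball c hR.ne', mem_sphere, dist_eq_norm] at hz
        rw [hnf1, ← heq z hz, ← hnf]
        exact hb z (by rw [mem_closedBall, dist_eq_norm, hz])
      have hnz : ∀ s ∈ closedBall c r, (h * u) s ≠ 0 := by
        intro s hs h0
        have hsR : s ∈ closedBall c R := closedBall_subset_closedBall hrR.le hs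
        rw [Pi.mul_apply, mul_eq_zero] at h0
        rcases h0 with h0 | h0
        · apply hz s hs
          have := hnf s
          rw [h0, norm_zero, mul_zero] at this
          exact norm_eq_zero.1 this
        · exact hu_low s hsR h0
      obtain ⟨F, F1, F2, F3, F4, F5⟩ := ih (h * u) (N - 1) hf1an hmm hnz (by linarith)
        (by push_cast at hNm; linarith) hc1
      · refine ⟨F, F1, F2, F3, ?_, ?_⟩
        · intro s hs
          refine le_trans ?_ (F4 s hs)
          rw [hnf, hnf1]
          exact mul_le_mul_of_nonneg_right (hge s (ball_subset_closedBall hs)) (norm_nonneg _)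
        · intro s hs
          refine (F5 s hs).trans ?_
          have h1 : ‖(h * u) s‖ ≤ ‖f s‖ * (4 * R / r) := by
            rw [hnf, hnf1]
            have := mul_le_mul_of_nonneg_right (hup s hs) (norm_nonneg (h s))
            linarith
          have hpos : 0 < 4 * R / r := by positivity
          have h2 : (4 * R / r) ^ N = (4 * R / r) * (4 * R / r) ^ (N - 1) := by
            rw [Real.rpow_sub_one hpos.ne']
            field_simp
          rw [h2, ← mul_assoc]
          exact mul_le_mul_of_nonneg_right h1 (Real.rpow_nonneg hpos.le _)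

theorem taskZ1 : TaskZ1 := by
  intro B R r c f _ hR hr hrR hf hb hz N hN hc
  exact z1_aux B R r c hR hr hrR ⌈N⌉₊ f N hf hb hz hN (Nat.le_ceil N) hc

end Pool.Agent.H902R3.XI
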